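import Pool.Agent.Work.MP_db9399_en.Interface

/-!
# MP_db9399, SPW / SW: the sparse world at polynomial scales (helper35)

`Stmt_SPW`: every finite graph of large maximum degree `d` in which small sets of vertices of almost
full degree expand has a total colouring with `d + 2` colours (`g`, `M` constants). `Stmt_SW`: the same
with polynomially small expansion. Blocks and proofs: `BLUEPRINT.md`.
All blocks have the parameter `a ∈ (0, 1/100]`: windows `exp (d ^ (a / 20))`, reserve degree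
between `d ^ (1 - a)` and `d ^ (1 - a / 3)`.
-/

set_option autoImplicit false

namespace Pool.Agent.Work.MP_db9399_cg

open Finset Classical
open Pool.Agent.Work.MP_db9399_all (nb mis)
open Pool.Agent.Work.MP_db9399_en (tk tks HH wlk)
open _root_.MP_db9399_co (IsTotalColoring)

universe u

section Defs

variable {V : Type u} [Fintype V]

/-- edges from `T` to the complement of `U` -/
noncomputable def outE (G : SimpleGraph V) (T U : Finset V) : ℝ := ∑ v ∈ T, ((nb G v \ U).card : ℝ)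

/-- local expansion -/
def LExp (G : SimpleGraph V) (d : ℕ) (g M : ℝ) : Prop :=
  ∀ T U : Finset V, (T.card : ℝ) ≤ M * d → (U.card : ℝ) ≤ (1 + g) * T.card →
    g * d * T.card ≤ outE G T U

/-- `d`-regular -/
def Reg (G : SimpleGraph V) (d : ℕ) : Prop := ∀ v, (nb G v).card = d

/-- codegree -/
noncomputable def cdg (G : SimpleGraph V) (u w : V) : ℝ := ((nb G u ∩ nb G w).card : ℝ)

/-- two-step expansion of the sets of at most `N` vertices -/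
def Ex2 (G : SimpleGraph V) (R : ℕ) (N g : ℝ) : Prop :=
  ∀ T : Finset V, (T.card : ℝ) ≤ N →
    g * T.card ≤ ∑ u ∈ T, ∑ w ∈ univ \ T, cdg G u w / (R : ℝ) ^ 2

/-- the kernel of `j` steps of the averaging operator of `S` -/
noncomputable def pk (S : SimpleGraph V) (r j : ℕ) (v x : V) : ℝ :=
  ((HH S r)^[j] fun y => if y = x then 1 else 0) v

/-- the window -/
noncomputable def sx (d : ℕ) (a : ℝ) : ℝ := Real.exp ((d : ℝ) ^ (a / 20))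

/-- a small polynomial number -/
noncomputable def sp (d : ℕ) (a : ℝ) : ℝ := (d : ℝ) ^ (a / 10)

/-- the reserve: `S` of degree `r` (or `r + 1` on the sparse set `Exc`) with an independent set `K`
and with two-step expansion -/
structure Res (G S : SimpleGraph V) (d r : ℕ) (a gS ρ0 MS : ℝ) (K Exc : Finset V) : Prop where
  sub : S ≤ G
  rlo : (d : ℝ) ^ (1 - a) ≤ r
  rhi : (r : ℝ) ≤ (d : ℝ) ^ (1 - a / 3)
  lo : ∀ v, r ≤ (nb S v).card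
  hi : ∀ v, (nb S v).card ≤ r + 1
  off : ∀ v, v ∉ Exc → (nb S v).card = r
  exc : ∀ v, ((nb S v ∩ Exc).card : ℝ) ≤ ρ0 * r
  K1 : ∀ v ∈ K, ∀ w ∈ K, ¬ S.Adj v w
  K2 : ∀ v, v ∉ K → (r : ℝ) / 128 ≤ ((nb S v ∩ K).card : ℝ)
  K3 : ∀ v, (r : ℝ) / 2 ≤ ((nb S v \ K).card : ℝ)
  ex : Ex2 S (r + 1) (MS * d) gS

/-- the matchings of the colours -/
structure Mat (G S : SimpleGraph V) (d P r : ℕ) (a : ℝ) (N : Fin P → V → V) : Prop where
  sub : S ≤ G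
  hP : P + r = d + 1
  rlo : (d : ℝ) ^ (1 - a) ≤ r
  rhi : (r : ℝ) ≤ (d : ℝ) ^ (1 - a / 3)
  reg : Reg G d
  lo : ∀ v, r ≤ (nb S v).card
  hi : ∀ v, (nb S v).card ≤ r + 1
  NN : ∀ b v, N b (N b v) = v
  NG : ∀ b v, N b v ≠ v → G.Adj v (N b v) ∧ ¬ S.Adj v (N b v)
  Nd : ∀ b b' v, N b v ≠ v → N b v = N b' v → b = b'
  co : ∀ v w, G.Adj v w → ¬ S.Adj v w → ∃ b, N b v = w
  ms : ∀ b v, (((nb S v).filter fun w => N b w = w).card : ℝ) ≤ sp d a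

/-- admissible tests -/
structure Tst {I : Type u} [Fintype I] (k : I → V → ℝ) (d : ℕ) (a e : ℝ) : Prop where
  sup : ∀ i x, |k i x| ≤ e / d
  l1 : ∀ i, ∑ x, |k i x| ≤ 3
  supp : ∀ i, ((univ.filter fun x => k i x ≠ 0).card : ℝ) ≤ sx d a
  mult : ∀ x, ((univ.filter fun i => k i x ≠ 0).card : ℝ) ≤ sx d a

/-- the own colours; `s` is an absolute constant -/
structure Own (G S : SimpleGraph V) (d P r : ℕ) (a s : ℝ) (N : Fin P → V → V) (c : V → Fin P) :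
    Prop where
  cp : ∀ v w, G.Adj v w → c v ≠ c w
  t1 : ∀ x, ((univ.filter fun b => x ∈ tk c N b).card : ℝ) ≤ (d : ℝ) ^ (s * a)
  t2 : ∀ b y, (((nb S y).filter fun x => x ∈ tk c N b).card : ℝ) ≤ 2 * (d : ℝ) ^ (s * a)
  ow : ∀ b y, (((nb S y).filter fun x => c x = b).card : ℝ) ≤ (d : ℝ) ^ (s * a)
  av : ∀ y, (∑ x ∈ nb S y, ((univ.filter fun b => x ∈ tk c N b).card : ℝ)) ≤ 4 * r

end Defs

/-- A: the reserve. -/
def Stmt_A : Prop :=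
  ∀ a ρ0 MS : ℝ, 0 < a → a ≤ 1 / 100 → 0 < ρ0 → ρ0 ≤ 1 → 1 ≤ MS → ∃ d0 : ℕ,
    ∀ {V : Type u} [Fintype V] (G : SimpleGraph V) (d : ℕ) (g : ℝ), d0 ≤ d → Reg G d → g ≤ 1 →
      (d : ℝ) ^ (-(a / 200)) ≤ g → Ex2 G d (MS * d) g →
      ∃ (S : SimpleGraph V) (r : ℕ) (K Exc : Finset V), Res G S d r a (g / 100) ρ0 MS K Exc

/-- KER: the kernel. -/
def Stmt_KER : Prop :=
  ∀ a e : ℝ, 0 < a → a ≤ 1 / 100 → 0 < e → ∃ (MS : ℝ) (d0 : ℕ), 1 ≤ MS ∧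
    ∀ {V : Type u} [Fintype V] (G S : SimpleGraph V) (d r : ℕ) (gS ρ0 : ℝ) (K Exc : Finset V),
      d0 ≤ d → 0 ≤ ρ0 → ρ0 ≤ 1 → (d : ℝ) ^ (-(a / 150)) ≤ gS → gS ≤ 1 →
      Res G S d r a gS ρ0 MS K Exc →
      ∃ L : ℕ, 2 ≤ L ∧ (L : ℝ) ≤ (d : ℝ) ^ (a / 20) ∧
        (∀ v x, pk S r (2 * L) v x ≤ e / d) ∧ (∀ v x, pk S r (2 * L - 1) v x ≤ e / d) ∧
        (∀ v, ∑ x, (pk S r (2 * L) v x + pk S r (2 * L - 1) v x) ≤ 3) ∧
        (∀ v, |∑ x, (pk S r (2 * L) v x - pk S r (2 * L - 1) v x)| ≤ e) ∧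
        (∀ v, |∑ x, (pk S r (2 * L) v x - pk S r (2 * L - 1) v x) *
          (((nb S x).card + 1 - r : ℕ) : ℝ)| ≤ 3 * ρ0 + e) ∧
        (∀ v, ((univ.filter fun x => pk S r (2 * L) v x ≠ 0 ∨ pk S r (2 * L - 1) v x ≠ 0).card : ℝ)
          ≤ sx d a) ∧
        (∀ x, ((univ.filter fun v => pk S r (2 * L) v x ≠ 0 ∨ pk S r (2 * L - 1) v x ≠ 0).card : ℝ)
          ≤ sx d a)

/-- TOK: an edge colouring of `G - S` whose tokens are smooth. -/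
def Stmt_TOK : Prop :=
  ∀ a ε : ℝ, 0 < a → a ≤ 1 / 100 → 0 < ε → ∃ (e : ℝ) (d0 : ℕ), 0 < e ∧
    ∀ {V : Type u} [Fintype V] (G S : SimpleGraph V) (d P r : ℕ) {I : Type u} [Fintype I]
      (k : I → V → ℝ), d0 ≤ d → Reg G d → S ≤ G → P + r = d + 1 →
      (d : ℝ) ^ (1 - a) ≤ r → (r : ℝ) ≤ (d : ℝ) ^ (1 - a / 3) →
      (∀ v, r ≤ (nb S v).card) → (∀ v, (nb S v).card ≤ r + 1) → Tst k d a e →
      ∃ N : Fin P → V → V, Mat G S d P r a N ∧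
        ∀ i, ∑ b, |∑ x ∈ univ.filter (fun x => N b x = x), k i x| ≤
          |∑ x, k i x * (((nb S x).card + 1 - r : ℕ) : ℝ)| + ε

/-- OWN: own colours after the matchings; every neighbourhood has `δ d²` non-adjacent pairs,
`δ` constant. -/
def Stmt_OWN : Prop :=
  ∃ s a0 : ℝ, 0 < s ∧ 0 < a0 ∧
  ∀ a δ ε : ℝ, 0 < a → a ≤ a0 → a ≤ 1 / 100 → 0 < δ → δ ≤ 1 → 0 < ε → ∃ (e : ℝ) (d0 : ℕ), 0 < e ∧
    ∀ {V : Type u} [Fintype V] (G S : SimpleGraph V) (d P r : ℕ) {I : Type u} [Fintype I]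
      (k : I → V → ℝ) (N : Fin P → V → V), d0 ≤ d →
      (∀ v, δ * (d : ℝ) ^ 2 ≤ ((mis G (nb G v)).card : ℝ)) → Mat G S d P r a N → Tst k d a e →
      (∀ i, |∑ x, k i x| ≤ e) →
      ∃ c : V → Fin P, Own G S d P r a s N c ∧
        ∀ i, ∑ b, |∑ x ∈ tk c N b, k i x| ≤
          ∑ b, |∑ x ∈ univ.filter (fun x => N b x = x), k i x| + ε

/-- OWNP: the same with polynomially small `δ`. -/
def Stmt_OWNP : Prop :=
  ∃ s a0 : ℝ, 0 < s ∧ 0 < a0 ∧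
  ∀ a ε : ℝ, 0 < a → a ≤ a0 → a ≤ 1 / 100 → 0 < ε → ∃ (e : ℝ) (d0 : ℕ), 0 < e ∧
    ∀ {V : Type u} [Fintype V] (G S : SimpleGraph V) (d P r : ℕ) {I : Type u} [Fintype I]
      (k : I → V → ℝ) (N : Fin P → V → V), d0 ≤ d →
      (∀ v, (d : ℝ) ^ (2 - a / 100) ≤ ((mis G (nb G v)).card : ℝ)) → Mat G S d P r a N →
      Tst k d a e → (∀ i, |∑ x, k i x| ≤ e) →
      ∃ c : V → Fin P, Own G S d P r a s N c ∧
        ∀ i, ∑ b, |∑ x ∈ tk c N b, k i x| ≤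
          ∑ b, |∑ x ∈ univ.filter (fun x => N b x = x), k i x| + ε

/-- KML: the set `Km` and the labels. -/
def Stmt_KML : Prop :=
  ∀ s : ℝ, 0 < s → ∃ a0 : ℝ, 0 < a0 ∧
  ∀ a ε : ℝ, 0 < a → a ≤ a0 → a ≤ 1 / 100 → 0 < ε → ∃ (e : ℝ) (d0 : ℕ), 0 < e ∧
    ∀ {V : Type u} [Fintype V] (G S : SimpleGraph V) (d P r : ℕ) {I : Type u} [Fintype I]
      (p q : I → V → ℝ) (N : Fin P → V → V) (c : V → Fin P) (K : Finset V), d0 ≤ d →
      Mat G S d P r a N → Own G S d P r a s N c →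
      (∀ v ∈ K, ∀ w ∈ K, ¬ S.Adj v w) → (∀ v, v ∉ K → (r : ℝ) / 128 ≤ ((nb S v ∩ K).card : ℝ)) →
      (∀ i x, 0 ≤ p i x) → (∀ i x, 0 ≤ q i x) → Tst (fun i x => p i x + q i x) d a e →
      (∀ i, ∑ x, (p i x + q i x) * ((univ.filter fun b => x ∈ tk c N b).card : ℝ) ≤ 20) →
      ∃ (Km : Finset V) (lab : Fin P → V → Bool), Km ⊆ K ∧
        (∀ v ∈ Km, ∀ w ∈ Km, G.Adj v w → ∃ b, N b v = w ∧ c v ≠ b ∧ c w ≠ b) ∧
        (∀ v, v ∉ K → (r : ℝ) / 4000000 ≤ (((nb S v).filter fun w => w ∈ Km).card : ℝ)) ∧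
        ∀ i, ∑ b, ∑ s : Bool,
          |∑ x ∈ tks c N lab b s, p i x - ∑ x ∈ tks c N lab b (!s), q i x| ≤
          ∑ b, |∑ x ∈ tk c N b, (p i x - q i x)| + ε

/-- **The sparse world**, `d`-regular case. -/
def Stmt_SPR : Prop :=
  ∀ g : ℝ, 0 < g → g ≤ 1 → ∃ (M : ℝ) (d0 : ℕ), 1 ≤ M ∧
    ∀ {V : Type u} [Fintype V] (G : SimpleGraph V) (d : ℕ), d0 ≤ d → Reg G d → LExp G d g M →
      ∃ (c : V → Fin (d + 2)) (t : Sym2 V → Fin (d + 2)), IsTotalColoring G c t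

/-- **The sparse world.** -/
def Stmt_SPW : Prop :=
  ∀ g : ℝ, 0 < g → g ≤ 1 → ∃ (M : ℝ) (d0 : ℕ), 1 ≤ M ∧
    ∀ {V : Type u} [Fintype V] (G : SimpleGraph V) (d : ℕ), d0 ≤ d → (∀ v, (nb G v).card ≤ d) →
      (∀ T U : Finset V, (∀ v ∈ T, (1 - g) * d ≤ ((nb G v).card : ℝ)) → (T.card : ℝ) ≤ M * d →
        (U.card : ℝ) ≤ (1 + g) * T.card → g * d * T.card ≤ outE G T U) →
      ∃ (c : V → Fin (d + 2)) (t : Sym2 V → Fin (d + 2)), IsTotalColoring G c t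

/-- **The sparse world at polynomial scales**, `d`-regular case. -/
def Stmt_SWR : Prop :=
  ∃ (c0 M : ℝ) (d0 : ℕ), 0 < c0 ∧ 1 ≤ M ∧
    ∀ {V : Type u} [Fintype V] (G : SimpleGraph V) (d : ℕ), d0 ≤ d → Reg G d →
      LExp G d ((d : ℝ) ^ (-c0)) M →
      ∃ (c : V → Fin (d + 2)) (t : Sym2 V → Fin (d + 2)), IsTotalColoring G c t

/-- **SW** (helper2). -/
def Stmt_SW : Prop :=
  ∃ (c0 M : ℝ) (d0 : ℕ), 0 < c0 ∧ 1 ≤ M ∧
    ∀ {V : Type u} [Fintype V] (G : SimpleGraph V) (d : ℕ), d0 ≤ d → (∀ v, (nb G v).card ≤ d) →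
      (∀ T U : Finset V, (∀ v ∈ T, (d : ℝ) - (d : ℝ) ^ (1 - c0) ≤ ((nb G v).card : ℝ)) →
        (T.card : ℝ) ≤ M * d → (U.card : ℝ) ≤ (1 + (d : ℝ) ^ (-c0)) * T.card →
        (d : ℝ) ^ (1 - c0) * T.card ≤ outE G T U) →
      ∃ (c : V → Fin (d + 2)) (t : Sym2 V → Fin (d + 2)), IsTotalColoring G c t

/-- CODEG: all codegrees at most `η d`, where `η > 0` is an absolute constant. -/
def Stmt_CODEG : Prop :=
  ∃ (η : ℝ) (d0 : ℕ), 0 < η ∧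
    ∀ {V : Type u} [Fintype V] (G : SimpleGraph V) (d : ℕ), d0 ≤ d → (∀ v, (nb G v).card ≤ d) →
      (∀ v w, v ≠ w → ((nb G v ∩ nb G w).card : ℝ) ≤ η * d) →
      ∃ (c : V → Fin (d + 2)) (t : Sym2 V → Fin (d + 2)), IsTotalColoring G c t

end Pool.Agent.Work.MP_db9399_cg
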