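import Pool.Agent.Work.MP_db9399_cg.Interface

/-!
# MP_db9399, SPW / SW, block A: sub-blocks (helper35)
-/

set_option autoImplicit false

namespace Pool.Agent.Work.MP_db9399_cg

open Finset Classical
open Pool.Agent.Work.MP_db9399_all (nb pr DepOnI PackI Stmt_LLLI)

universe u

section Defs2

variable {V : Type u} [Fintype V]

/-- centred indicator of `K` -/
noncomputable def io (K : Finset V) (b : ℝ) (x : V) : ℝ := (if x ∈ K then 1 else 0) - b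

/-- centred number of neighbours in `K` -/
noncomputable def LK (G : SimpleGraph V) (d : ℕ) (b : ℝ) (K : Finset V) (x : V) : ℝ :=
  ((nb G x ∩ K).card : ℝ) - b * d

/-- the vertices of small codegree with `u` -/
noncomputable def low (G : SimpleGraph V) (d : ℕ) (a : ℝ) (u : V) : Finset V :=
  univ.filter fun w => cdg G u w < (d : ℝ) ^ (3 * a)

/-- the labels: `K` of density `b`, `M true`, `M false` of density `ρ'` -/
structure Lab (G : SimpleGraph V) (d : ℕ) (a b ρ' : ℝ) (K : Finset V) (M : Bool → Finset V) :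
    Prop where
  dis : Disjoint (M true) (M false)
  k : ∀ v, |LK G d b K v| ≤ √d * Real.log d
  q : ∀ v, |∑ x ∈ nb G v, io K b x * LK G d b K x| ≤ d * Real.log d ^ 3
  m1 : ∀ s v, |((nb G v ∩ M s ∩ K).card : ℝ) - ρ' * b * d| ≤ √d * Real.log d
  m2 : ∀ s v, |(((nb G v ∩ M s) \ K).card : ℝ) - ρ' * (1 - b) * d| ≤ √d * Real.log d
  p1 : ∀ u w, (d : ℝ) ^ (3 * a) ≤ cdg G u w →
    cdg G u w / 2 ≤ (((nb G u ∩ nb G w) \ K).card : ℝ)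
  p2 : ∀ u, (∑ y ∈ nb G u, ((nb G y ∩ low G d a u).card : ℝ)) / 2 - (d : ℝ) ^ (8 / 5 : ℝ) ≤
    ∑ y ∈ nb G u \ K, ((nb G y ∩ low G d a u).card : ℝ)

/-- the weights of the pairs -/
noncomputable def wpi (G : SimpleGraph V) (d : ℕ) (b : ℝ) (K : Finset V) (v w : V) : ℝ :=
  if v ∈ K ∧ w ∈ K then 0
  else if v ∈ K then 1 / (1 - b) + 1 / (1 - b) ^ 2 * (LK G d b K v / d)
  else if w ∈ K then 1 / (1 - b) + 1 / (1 - b) ^ 2 * (LK G d b K w / d)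
  else (1 - 2 * b) / (1 - b) ^ 2 - b / (1 - b) ^ 3 * (LK G d b K v / d + LK G d b K w / d)

/-- an arbitrary injection of the vertices into `ℕ` -/
noncomputable def ix (v : V) : ℕ := (Fintype.equivFin V v : ℕ)

/-- arc from `v` to `w`: parity of the coin of the edge -/
def cO {M : ℕ} (G1 : SimpleGraph V) (f : Sym2 V → Fin M) (v w : V) : Prop :=
  G1.Adj v w ∧ (ix v < ix w ↔ (f s(v, w) : ℕ) % 2 = 0)

/-- the edge is in `S_0` -/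
def cZ {M : ℕ} (G1 : SimpleGraph V) (θ : V → V → ℝ) (f : Sym2 V → Fin M) (v w : V) : Prop :=
  G1.Adj v w ∧ 2 * (((f s(v, w) : ℕ) / 2 : ℕ) : ℝ) < θ v w * M

/-- the neighbours on the side `s` of `v` (`true` = out) -/
noncomputable def sd (O : V → V → Prop) (s : Bool) (v : V) : Finset V :=
  univ.filter fun w => if s then O v w else O w v

/-- those not in `S_0` -/
noncomputable def sdc (O Z : V → V → Prop) (s : Bool) (v : V) : Finset V :=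
  (sd O s v).filter fun w => ¬ Z v w

/-- those in `S_0` -/
noncomputable def sdz (O Z : V → V → Prop) (s : Bool) (v : V) : Finset V :=
  (sd O s v).filter fun w => Z v w

/-- total of the side `s` at `v` -/
noncomputable def tot (O Z : V → V → Prop) (x1 : V → V → ℝ) (s : Bool) (v : V) : ℝ :=
  ((sdz O Z s v).card : ℝ) + ∑ w ∈ sdc O Z s v, x1 v w

/-- its mean -/
noncomputable def mtot (G1 : SimpleGraph V) (θ x1 : V → V → ℝ) (v : V) : ℝ :=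
  (∑ w ∈ nb G1 v, (θ v w + (1 - θ v w) * x1 v w)) / 2

/-- what the coins satisfy at the vertex `v`, first part -/
structure CoinV (G1 : SimpleGraph V) (d : ℕ) (κ : ℝ) (θ x1 : V → V → ℝ) {m : ℕ}
    (h : Fin m → V → V → ℝ) (cc : V → ℝ) (O Z : V → V → Prop) (v : V) : Prop where
  i : ∀ j s, |∑ w ∈ sdc O Z s v, h j v w - (∑ w ∈ nb G1 v, (1 - θ v w) * h j v w) / 2| ≤
    √d * Real.log d
  ii : ∀ j s, |∑ w ∈ sdz O Z s v, h j v w - (∑ w ∈ nb G1 v, θ v w * h j v w) / 2| ≤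
    √(κ * d) * Real.log d
  iii : ∀ s, |∑ w ∈ sdc O Z s v, (tot O Z x1 (!s) w - mtot G1 θ x1 w) / cc w| ≤
    √κ * Real.log d ^ 2

/-- codegree in `Z` -/
noncomputable def cdz (Z : V → V → Prop) (v w : V) : ℝ :=
  ((univ.filter fun y => Z v y ∧ Z w y).card : ℝ)

/-- what the coins satisfy at the vertex `v`, second part: codegrees -/
structure CoinP (G G1 : SimpleGraph V) (d : ℕ) (a κ : ℝ) (Z : V → V → Prop) (v : V) : Prop where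
  iv : ∀ w, w ≠ v → (d : ℝ) ^ (3 * a) / 2 ≤ cdg G1 v w → κ ^ 2 / 8 * cdg G1 v w ≤ cdz Z v w
  v : κ ^ 2 / 8 * ∑ w ∈ low G d a v, cdg G1 v w - κ ^ 2 * (d : ℝ) ^ (2 - a) ≤
    ∑ w ∈ low G d a v, cdz Z v w

/-- the ball of radius 1 -/
noncomputable def bl (G : SimpleGraph V) (v : V) : Finset V := insert v (nb G v)

/-- hypotheses on the edge data -/
structure Edat (G G1 : SimpleGraph V) (d : ℕ) (a κ : ℝ) (θ x1 : V → V → ℝ) {m : ℕ}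
    (h : Fin m → V → V → ℝ) (cc : V → ℝ) : Prop where
  reg : Reg G d
  sub : G1 ≤ G
  k1 : (d : ℝ) ^ (-a) ≤ κ
  k2 : κ ≤ (d : ℝ) ^ (-(a / 3))
  th : ∀ v w, θ v w = θ w v
  th1 : ∀ v w, κ / 2 ≤ θ v w
  th2 : ∀ v w, θ v w ≤ 2 * κ
  y0 : ∀ v w, 0 ≤ x1 v w
  y1 : ∀ v w, x1 v w ≤ 2 * κ
  ys : ∀ v w, x1 v w = x1 w v
  h0 : ∀ j v w, 0 ≤ h j v w
  h1 : ∀ j v w, h j v w ≤ 1
  c1 : ∀ v, (d : ℝ) / 4 ≤ cc v

end Defs2

/-- A1: the labels. -/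
def Stmt_A1 : Prop :=
  ∀ (a : ℝ) (n2 : ℕ), 0 < a → a ≤ 1 / 100 → 4 ≤ n2 → ∃ d0 : ℕ, ∀ {V : Type u} [Fintype V]
    (G : SimpleGraph V) (d : ℕ), d0 ≤ d → Reg G d →
    ∃ (K : Finset V) (M : Bool → Finset V), Lab G d a (1 / 64) (1 / n2) K M

/-- A2: the weights. -/
def Stmt_A2 : Prop :=
  ∃ (C : ℝ) (d0 : ℕ), ∀ {V : Type u} [Fintype V]
    (G : SimpleGraph V) (d : ℕ) (a ρ' : ℝ) (K : Finset V) (M : Bool → Finset V), d0 ≤ d →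
    Reg G d → Lab G d a (1 / 64) ρ' K M →
    (∀ v w, wpi G d (1 / 64) K v w = wpi G d (1 / 64) K w v) ∧
    (∀ v w, ¬ (v ∈ K ∧ w ∈ K) → 3 / 4 ≤ wpi G d (1 / 64) K v w ∧
      wpi G d (1 / 64) K v w ≤ 5 / 4) ∧
    ∀ v, |∑ w ∈ nb G v, wpi G d (1 / 64) K v w - d| ≤ C * Real.log d ^ 3

/-- A3: the coins at a vertex, first part. -/
def Stmt_A3 : Prop :=
  ∀ (a : ℝ) (m : ℕ), 0 < a → a ≤ 1 / 100 → ∃ d0 : ℕ, ∀ {V : Type u} [Fintype V]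
    (G G1 : SimpleGraph V) (d M : ℕ) (κ : ℝ)
    (θ x1 : V → V → ℝ) (h : Fin m → V → V → ℝ) (cc : V → ℝ), d0 ≤ d → M = 2 * d ^ 4 →
    Edat G G1 d a κ θ x1 h cc →
    ∀ v, PackI (M := M) (1 / (d : ℝ) ^ 5)
      (univ.filter fun e : Sym2 V => ∃ y ∈ e, y ∈ bl G v) (1 / (d : ℝ) ^ 8)
      (fun f => CoinV G1 d κ θ x1 h cc (cO G1 f) (cZ G1 θ f) v)

/-- A4: the coins at a vertex, codegrees. -/
def Stmt_A4 : Prop :=
  ∀ (a : ℝ) (m : ℕ), 0 < a → a ≤ 1 / 100 → ∃ d0 : ℕ, ∀ {V : Type u} [Fintype V]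
    (G G1 : SimpleGraph V) (d M : ℕ) (κ : ℝ)
    (θ x1 : V → V → ℝ) (h : Fin m → V → V → ℝ) (cc : V → ℝ), d0 ≤ d → M = 2 * d ^ 4 →
    Edat G G1 d a κ θ x1 h cc →
    ∀ v, PackI (M := M) (1 / (d : ℝ) ^ 5)
      (univ.filter fun e : Sym2 V => ∃ y ∈ e, y ∈ bl G v) (1 / (d : ℝ) ^ 8)
      (fun f => CoinP G G1 d a κ (cZ G1 θ f) v)

/-- A34: all coins (assembly of A3, A4 by the local lemma). -/
def Stmt_A34 : Prop :=
  ∀ (a : ℝ) (m : ℕ), 0 < a → a ≤ 1 / 100 → ∃ d0 : ℕ, ∀ {V : Type u} [Fintype V]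
    (G G1 : SimpleGraph V) (d : ℕ) (κ : ℝ) (θ x1 : V → V → ℝ) (h : Fin m → V → V → ℝ)
    (cc : V → ℝ), d0 ≤ d → Edat G G1 d a κ θ x1 h cc →
    ∃ O Z : V → V → Prop, (∀ v w, G1.Adj v w → (O v w ↔ ¬ O w v)) ∧ (∀ v w, O v w → G1.Adj v w) ∧
      (∀ v w, Z v w → Z w v) ∧ (∀ v w, Z v w → G1.Adj v w) ∧
      (∀ v, CoinV G1 d κ θ x1 h cc O Z v) ∧ ∀ v, CoinP G G1 d a κ Z v

/-- A5: exactness. `G1` = the edges of `G` not inside `K`. -/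
def Stmt_A5 : Prop :=
  ∀ (a : ℝ) (n2 : ℕ), 0 < a → a ≤ 1 / 100 → 16 ≤ n2 → ∃ (d0 m : ℕ), ∀ {V : Type u} [Fintype V]
    (G G1 : SimpleGraph V) (d f : ℕ) (κ : ℝ) (K : Finset V) (M : Bool → Finset V), d0 ≤ d →
    Reg G d → Lab G d a (1 / 64) (1 / n2) K M →
    (∀ v w, G1.Adj v w ↔ G.Adj v w ∧ ¬ (v ∈ K ∧ w ∈ K)) →
    (f : ℝ) + 1 / (2 * n2) = κ * d / 2 → (d : ℝ) ^ (-a) ≤ κ → κ ≤ (d : ℝ) ^ (-(a / 3)) →
    ∃ (θ x1 : V → V → ℝ) (h : Fin m → V → V → ℝ) (cc : V → ℝ), Edat G G1 d a κ θ x1 h cc ∧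
      ∀ O Z : V → V → Prop, (∀ v w, G1.Adj v w → (O v w ↔ ¬ O w v)) → (∀ v w, O v w → G1.Adj v w) →
        (∀ v w, Z v w → Z w v) → (∀ v w, Z v w → G1.Adj v w) →
        (∀ v, CoinV G1 d κ θ x1 h cc O Z v) →
        ∃ S : SimpleGraph V, S ≤ G1 ∧ (∀ v w, Z v w → S.Adj v w) ∧
          (∀ v, 2 * f ≤ (nb S v).card) ∧ (∀ v, (nb S v).card ≤ 2 * f + 1) ∧
          (∀ v, v ∉ M true ∪ M false → (nb S v).card = 2 * f) ∧
          (∀ v, ((nb S v ∩ (M true ∪ M false)).card : ℝ) ≤ 4 / n2 * (2 * f)) ∧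
          (∀ v, v ∉ K → (2 * f : ℝ) / 128 ≤ ((nb S v ∩ K).card : ℝ)) ∧
          ∀ v, (f : ℝ) ≤ ((nb S v \ K).card : ℝ)

/-- A6: two-step expansion of `S` from the codegrees. -/
def Stmt_A6 : Prop :=
  ∀ a MS : ℝ, 0 < a → a ≤ 1 / 100 → 1 ≤ MS → ∃ d0 : ℕ, ∀ {V : Type u} [Fintype V]
    (G G1 S : SimpleGraph V) (d f : ℕ) (κ g ρ' : ℝ) (K : Finset V) (M : Bool → Finset V)
    (Z : V → V → Prop), d0 ≤ d → Reg G d → Lab G d a (1 / 64) ρ' K M → g ≤ 1 →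
    (d : ℝ) ^ (-(a / 200)) ≤ g → Ex2 G d (MS * d) g →
    (∀ v w, G1.Adj v w ↔ G.Adj v w ∧ ¬ (v ∈ K ∧ w ∈ K)) →
    (∀ v w, Z v w → Z w v) → (∀ v w, Z v w → G1.Adj v w) → (∀ v w, Z v w → S.Adj v w) →
    (2 * f : ℝ) ≤ κ * d → 1 ≤ f → (d : ℝ) ^ (-a) ≤ κ → κ ≤ (d : ℝ) ^ (-(a / 3)) →
    (∀ v, CoinP G G1 d a κ Z v) → Ex2 S (2 * f + 1) (MS * d) (g / 100)

end Pool.Agent.Work.MP_db9399_cg
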